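import Pool.Agent.H839.CQ.Loc

/-!
# The categorical local Langlands correspondence for the standard Levi subgroups of `G`

`Λ` is the set of the standard Levi subgroups of `G`; `le L M` means that `L` is the Levi subgroup of a
standard parabolic subgroup of `M` defined over `F`.  For `M` in `Λ`, the
homotopy category of the derived category `Rep(M)` is the product of the category `Tg M` of the
generic Bernstein blocks (the blocks `[L, σ]` with `σ` generic) and the category `Tn M` of the other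
blocks; `I M` is the homotopy category of `IndCoh(X_M)`.
-/

namespace Pool.Agent.H839.CQ

open CategoryTheory CategoryTheory.Limits Pretriangulated ZeroObject

universe w v u

/-- The data in Q1 for `G`, with their known formal properties. -/
structure LeviData (Λ : Type) (le : Λ → Λ → Prop) (Tg Tn I : Λ → Type u)
    [∀ M, Category.{v} (Tg M)] [∀ M, Preadditive (Tg M)] [∀ M, HasZeroObject (Tg M)]
    [∀ M, HasShift (Tg M) ℤ] [∀ M (n : ℤ), (shiftFunctor (Tg M) n).Additive]
    [∀ M, Pretriangulated (Tg M)]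
    [∀ M, Category.{v} (Tn M)] [∀ M, Preadditive (Tn M)] [∀ M, HasZeroObject (Tn M)]
    [∀ M, Category.{v} (I M)] [∀ M, Preadditive (I M)] [∀ M, HasZeroObject (I M)]
    [∀ M, HasShift (I M) ℤ] [∀ M (n : ℤ), (shiftFunctor (I M) n).Additive]
    [∀ M, Pretriangulated (I M)] where
  /-- `G` itself -/
  top : Λ
  /-- parabolic induction `i_P^M` for the standard parabolic subgroup `P` of `M` with Levi subgroup
  `L`, on the generic part -/
  indg : ∀ {L M : Λ}, le L M → (Tg L ⥤ Tg M)
  /-- parabolic induction on the non-generic part -/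
  indn : ∀ {L M : Λ}, le L M → (Tn L ⥤ Tn M)
  /-- spectral parabolic induction `(π_P)_* r_P^*` -/
  sp : ∀ {L M : Λ}, le L M → (I L ⥤ I M)
  sp_additive : ∀ {L M : Λ} (h : le L M), (sp h).Additive
  indg_zero : ∀ {L M : Λ} (h : le L M), IsZero ((indg h).obj 0)
  indn_zero : ∀ {L M : Λ} (h : le L M), IsZero ((indn h).obj 0)
  /-- the compact Whittaker functions `W_M`; they belong to the generic part -/
  W : ∀ M, Tg M
  /-- the structure sheaf of `X_M` -/
  O : ∀ M, I M
  /-- the generic part of `Rep(M)` is generated by the parabolic inductions of the `W_L` -/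
  gen : ∀ (M : Λ) (A : Tg M),
    Loc.{w} (fun Y => ∃ L, ∃ h : le L M, Nonempty ((indg h).obj (W L) ≅ Y)) A
  /-- induced by a colimit-preserving functor between stable infinity-categories -/
  goodg : ∀ M, (Tg M ⥤ I M) → Prop
  /-- induced by a colimit-preserving functor between stable infinity-categories -/
  goodn : ∀ M, (Tn M ⥤ I M) → Prop
  /-- induced by a colimit-preserving functor between stable infinity-categories -/
  good : ∀ M, (Tg M × Tn M ⥤ I M) → Prop
  goodg_cont : ∀ M Φ, goodg M Φ → Cont.{w} Φ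
  goodn_zero : ∀ M Φ, goodn M Φ → IsZero (Φ.obj 0)
  restr_g : ∀ M Φ, good M Φ → goodg M (Prod.sectL (Tg M) (0 : Tn M) ⋙ Φ)
  restr_n : ∀ M Φ, good M Φ → goodn M (Prod.sectR (0 : Tg M) (Tn M) ⋙ Φ)
  sum : ∀ M Φ Ψ, goodg M Φ → goodn M Ψ → good M (glue Φ Ψ)

namespace LeviData

variable {Λ : Type} {le : Λ → Λ → Prop} {Tg Tn I : Λ → Type u}
    [∀ M, Category.{v} (Tg M)] [∀ M, Preadditive (Tg M)] [∀ M, HasZeroObject (Tg M)]
    [∀ M, HasShift (Tg M) ℤ] [∀ M (n : ℤ), (shiftFunctor (Tg M) n).Additive]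
    [∀ M, Pretriangulated (Tg M)]
    [∀ M, Category.{v} (Tn M)] [∀ M, Preadditive (Tn M)] [∀ M, HasZeroObject (Tn M)]
    [∀ M, Category.{v} (I M)] [∀ M, Preadditive (I M)] [∀ M, HasZeroObject (I M)]
    [∀ M, HasShift (I M) ℤ] [∀ M (n : ℤ), (shiftFunctor (I M) n).Additive]
    [∀ M, Pretriangulated (I M)]
    (S : LeviData.{w} Λ le Tg Tn I)

/-- A family of fully faithful functors `LLC_M : Rep(M) ⥤ IndCoh(X_M)` with
`LLC_M(W_M) ≅ O_{X_M}`, compatible with parabolic induction for the pairs `L ⊆ M` in `rel`. -/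
def Family (rel : Λ → Λ → Prop) : Prop :=
  ∃ Φ : ∀ M, (Tg M × Tn M ⥤ I M),
    (∀ M, S.good M (Φ M) ∧ (Φ M).Full ∧ (Φ M).Faithful ∧
      Nonempty ((Φ M).obj (S.W M, 0) ≅ S.O M)) ∧
    ∀ (L M : Λ) (h : le L M), rel L M →
      Nonempty ((S.indg h).prod (S.indn h) ⋙ Φ M ≅ Φ L ⋙ S.sp h)

/-- The statement of Q1 for `G`: compatibility for the parabolic subgroups of `G`. -/
def Question : Prop := S.Family fun _ M => M = S.top

/-- The coherent form of Q1 for `G`: compatibility for all pairs `L ⊆ M` of standard Levi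
subgroups of `G`. -/
def Coherent : Prop := S.Family fun _ _ => True

/-- `Φ` is a family as in `Coherent` on the generic parts. -/
def IsGeneric (Φ : ∀ M, (Tg M ⥤ I M)) : Prop :=
  (∀ M, S.goodg M (Φ M) ∧ (Φ M).Full ∧ (Φ M).Faithful ∧ Nonempty ((Φ M).obj (S.W M) ≅ S.O M)) ∧
  ∀ (L M : Λ) (h : le L M), Nonempty (S.indg h ⋙ Φ M ≅ Φ L ⋙ S.sp h)

/-- The localizing subcategory of `IndCoh(X_M)` generated by the spectral inductions
`(π_P)_* r_P^* O_{X_L}` of the structure sheaves (coherent Springer sheaves), for all standard Levi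
subgroups `L` of `M`. -/
def Springer (M : Λ) (N : I M) : Prop :=
  Loc.{w} (fun Y => ∃ L, ∃ h : le L M, Nonempty ((S.sp h).obj (S.O L) ≅ Y)) N

/-- `Ψ` is a family of fully faithful functors on the non-generic parts, compatible with parabolic
induction, whose images are orthogonal on both sides to the categories `Springer M`. -/
def IsNonGeneric (Ψ : ∀ M, (Tn M ⥤ I M)) : Prop :=
  (∀ M, S.goodn M (Ψ M) ∧ (Ψ M).Full ∧ (Ψ M).Faithful ∧
    ∀ (B : Tn M) (N : I M), S.Springer M N →
      (∀ f : (Ψ M).obj B ⟶ N, f = 0) ∧ (∀ f : N ⟶ (Ψ M).obj B, f = 0)) ∧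
  ∀ (L M : Λ) (h : le L M), Nonempty (S.indn h ⋙ Ψ M ≅ Ψ L ⋙ S.sp h)

end LeviData

end Pool.Agent.H839.CQ
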