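import Mathlib

/-!
# Localizing subcategories and fully faithful functors
-/

namespace Pool.Agent.H839.CQ

open CategoryTheory CategoryTheory.Limits Pretriangulated ZeroObject

universe w v u

section Loc

variable {C : Type u} [Category.{v} C] [Preadditive C] [HasZeroObject C] [HasShift C ℤ]
  [∀ n : ℤ, (shiftFunctor C n).Additive] [Pretriangulated C]
variable {D : Type u} [Category.{v} D] [Preadditive D] [HasZeroObject D] [HasShift D ℤ]
  [∀ n : ℤ, (shiftFunctor D n).Additive] [Pretriangulated D]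

/-- `Q` is (the class of objects of) a localizing subcategory: closed under isomorphisms, shifts,
cones and coproducts. -/
structure Localizing (Q : C → Prop) : Prop where
  iso : ∀ {X Y : C}, (X ≅ Y) → Q X → Q Y
  shift : ∀ (X : C) (n : ℤ), Q X → Q (X⟦n⟧)
  cone : ∀ t ∈ distTriang C, Q t.obj₁ → Q t.obj₂ → Q t.obj₃
  coprod : ∀ (J : Type w) (X : J → C) (Y : C) (ι : ∀ j, X j ⟶ Y),
    Nonempty (IsColimit (Cofan.mk Y ι)) → (∀ j, Q (X j)) → Q Y

/-- `X` belongs to the localizing subcategory generated by the objects with the property `S`. -/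
def Loc (S : C → Prop) (X : C) : Prop :=
  ∀ Q : C → Prop, Localizing.{w} Q → (∀ Y, S Y → Q Y) → Q X

/-- `Φ` is a triangulated functor which preserves coproducts. -/
structure Cont (Φ : C ⥤ D) : Prop where
  exact : ∃ _ : Φ.CommShift ℤ, Φ.IsTriangulated
  coprod : ∀ J : Type w, PreservesColimitsOfShape (Discrete J) Φ

theorem loc_map (Φ : C ⥤ D) (h : Cont.{w} Φ) (S : C → Prop) (S' : D → Prop)
    (hS : ∀ Y, S Y → Loc.{w} S' (Φ.obj Y)) (X : C) (hX : Loc.{w} S X) : Loc.{w} S' (Φ.obj X) := by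
  obtain ⟨_, _⟩ := h.exact
  intro Q hQ hS'
  refine hX (fun X => Q (Φ.obj X)) ⟨fun e => hQ.iso (Φ.mapIso e), fun X n hX => ?_,
    fun t ht h1 h2 => ?_, fun J X Y ι hι hX => ?_⟩ (fun Y hY => hS Y hY Q hQ hS')
  · exact hQ.iso ((Φ.commShiftIso n).app X).symm (hQ.shift _ n hX)
  · exact hQ.cone _ (Φ.map_distinguished t ht) h1 h2
  · have := h.coprod J
    obtain ⟨hι⟩ := hι
    exact hQ.coprod J _ _ _ ⟨isColimitCofanMkObjOfIsColimit Φ _ _ hι⟩ hX

theorem image_localizing [HasCoproducts.{w} C] (Φ : C ⥤ D) (h : Cont.{w} Φ) [Φ.Full]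
    [Φ.Faithful] : Localizing.{w} fun N : D => ∃ B : C, Nonempty (Φ.obj B ≅ N) := by
  obtain ⟨_, _⟩ := h.exact
  refine ⟨fun {X Y} e ⟨B, ⟨i⟩⟩ => ⟨B, ⟨i ≪≫ e⟩⟩, fun X n ⟨B, ⟨i⟩⟩ =>
    ⟨B⟦n⟧, ⟨(Φ.commShiftIso n).app B ≪≫ (shiftFunctor D n).mapIso i⟩⟩, ?_, ?_⟩
  · rintro t ht ⟨B₁, ⟨e₁⟩⟩ ⟨B₂, ⟨e₂⟩⟩
    let f : B₁ ⟶ B₂ := Φ.preimage (e₁.hom ≫ t.mor₁ ≫ e₂.inv)
    obtain ⟨Z, g, k, hT⟩ := distinguished_cocone_triangle f
    have hT' := Φ.map_distinguished _ hT
    let i := isoTriangleOfIso₁₂ _ _ hT' ht e₁ e₂ (by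
      change Φ.map f ≫ e₂.hom = e₁.hom ≫ t.mor₁
      simp [f])
    exact ⟨Z, ⟨Triangle.π₃.mapIso i⟩⟩
  · rintro J X Y ι ⟨hι⟩ hX
    have := h.coprod J
    choose B e using hX
    let e' : ∀ j, Φ.obj (B j) ≅ X j := fun j => (e j).some
    have h1 : IsColimit (Cofan.mk Y fun j => (e' j).hom ≫ ι j) :=
      Cofan.IsColimit.mk _ (fun s => hι.desc (Cofan.mk s.pt fun j => (e' j).inv ≫ s.inj j))
        (fun s j => by
          have := hι.fac (Cofan.mk s.pt fun j => (e' j).inv ≫ s.inj j) ⟨j⟩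
          simp only [Cofan.mk_ι_app] at this
          simp [this])
        (fun s m hm => by
          apply hι.hom_ext
          rintro ⟨j⟩
          have := hι.fac (Cofan.mk s.pt fun j => (e' j).inv ≫ s.inj j) ⟨j⟩
          rw [this]
          simp only [Cofan.mk_ι_app]
          have h2 := hm j
          simp at h2
          rw [← h2]
          simp)
    have h2 := isColimitCofanMkObjOfIsColimit Φ _ _ (coproductIsCoproduct B)
    exact ⟨∐ B, ⟨h2.coconePointUniqueUpToIso h1⟩⟩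

end Loc

section Glue

variable {A : Type u} [Category.{v} A] {B : Type u} [Category.{v} B]
variable {I : Type u} [Category.{v} I] [Preadditive I] [HasBinaryBiproducts I]

/-- The functor `(X, Y) ↦ F X ⊕ G Y`. -/
noncomputable def glue (F : A ⥤ I) (G : B ⥤ I) : A × B ⥤ I where
  obj X := F.obj X.1 ⊞ G.obj X.2
  map f := biprod.map (F.map f.1) (G.map f.2)

theorem glue_fullyFaithful (F : A ⥤ I) (G : B ⥤ I) [F.Full] [F.Faithful] [G.Full] [G.Faithful]
    (h₁ : ∀ (X : A) (Y : B) (f : F.obj X ⟶ G.obj Y), f = 0)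
    (h₂ : ∀ (X : A) (Y : B) (f : G.obj Y ⟶ F.obj X), f = 0) :
    (glue F G).Full ∧ (glue F G).Faithful := by
  constructor
  · refine ⟨fun {X Y} k₀ => ?_⟩
    obtain ⟨k, hk⟩ : ∃ k : F.obj X.1 ⊞ G.obj X.2 ⟶ F.obj Y.1 ⊞ G.obj Y.2, k = k₀ := ⟨k₀, rfl⟩
    refine ⟨⟨F.preimage (biprod.inl ≫ k ≫ biprod.fst),
      G.preimage (biprod.inr ≫ k ≫ biprod.snd)⟩, ?_⟩
    rw [← hk]
    change biprod.map (F.map (F.preimage (biprod.inl ≫ k ≫ biprod.fst)))
      (G.map (G.preimage (biprod.inr ≫ k ≫ biprod.snd))) = k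
    apply biprod.hom_ext' <;> apply biprod.hom_ext
    · simp
    · simpa using (h₁ _ _ (biprod.inl ≫ k ≫ biprod.snd)).symm
    · simpa using (h₂ _ _ (biprod.inr ≫ k ≫ biprod.fst)).symm
    · simp
  · refine ⟨fun {X Y} f g hfg => ?_⟩
    change biprod.map (F.map f.1) (G.map f.2) = biprod.map (F.map g.1) (G.map g.2) at hfg
    apply Prod.ext
    · apply F.map_injective
      have := congrArg (fun k => biprod.inl ≫ k ≫ biprod.fst) hfg
      simpa using this
    · apply G.map_injective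
      have := congrArg (fun k => biprod.inr ≫ k ≫ biprod.snd) hfg
      simpa using this

end Glue

end Pool.Agent.H839.CQ
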