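import Pool.Agent.H839.CQ.Defs

namespace Pool.Agent.H839.CQ

open CategoryTheory CategoryTheory.Limits Pretriangulated ZeroObject

universe w v u

namespace LeviData

variable {Λ : Type} {le : Λ → Λ → Prop} {Tg Tn I : Λ → Type u}
    [∀ M, Category.{v} (Tg M)] [∀ M, Preadditive (Tg M)] [∀ M, HasZeroObject (Tg M)]
    [∀ M, HasShift (Tg M) ℤ] [∀ M (n : ℤ), (shiftFunctor (Tg M) n).Additive]
    [∀ M, Pretriangulated (Tg M)]
    [∀ M, Category.{v} (Tn M)] [∀ M, Preadditive (Tn M)] [∀ M, HasZeroObject (Tn M)]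
    [∀ M, Category.{v} (I M)] [∀ M, Preadditive (I M)] [∀ M, HasZeroObject (I M)]
    [∀ M, HasShift (I M) ℤ] [∀ M (n : ℤ), (shiftFunctor (I M) n).Additive]
    [∀ M, Pretriangulated (I M)]
    (S : LeviData.{w} Λ le Tg Tn I)

set_option linter.unusedSectionVars false

/-- The image of the generic part is the category generated by the coherent Springer sheaves. -/
theorem image_eq [∀ M, HasCoproducts.{w} (Tg M)] (Φ : ∀ M, (Tg M ⥤ I M)) (hΦ : S.IsGeneric Φ)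
    (M : Λ) (N : I M) : S.Springer M N ↔ ∃ A : Tg M, Nonempty ((Φ M).obj A ≅ N) := by
  have key : ∀ (L : Λ) (h : le L M),
      Nonempty ((Φ M).obj ((S.indg h).obj (S.W L)) ≅ (S.sp h).obj (S.O L)) := fun L h => by
    obtain ⟨i⟩ := hΦ.2 L M h
    obtain ⟨_, _, _, ⟨e⟩⟩ := hΦ.1 L
    exact ⟨i.app (S.W L) ≪≫ (S.sp h).mapIso e⟩
  obtain ⟨hg, _, _, _⟩ := hΦ.1 M
  have hc := S.goodg_cont M _ hg
  constructor
  · intro hN
    refine hN _ (image_localizing (Φ M) hc) ?_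
    rintro Y ⟨L, h, ⟨e⟩⟩
    obtain ⟨k⟩ := key L h
    exact ⟨_, ⟨k ≪≫ e⟩⟩
  · rintro ⟨A, ⟨e⟩⟩
    have h1 : S.Springer M ((Φ M).obj A) := by
      refine loc_map (Φ M) hc _ _ ?_ A (S.gen M A)
      rintro Y ⟨L, h, ⟨e'⟩⟩ Q hQ hS
      obtain ⟨k⟩ := key L h
      exact hS _ ⟨L, h, ⟨k.symm ≪≫ (Φ M).mapIso e'⟩⟩
    intro Q hQ hS
    exact hQ.iso e (h1 Q hQ hS)

/-- `indg ⋙ sectL ≅ sectL ⋙ ind` -/
noncomputable def sectLIso {L M : Λ} (h : le L M) :
    S.indg h ⋙ Prod.sectL (Tg M) (0 : Tn M) ≅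
      Prod.sectL (Tg L) (0 : Tn L) ⋙ (S.indg h).prod (S.indn h) :=
  NatIso.ofComponents (fun A => Iso.prod (Iso.refl _)
    ((isZero_zero (Tn M)).iso (S.indn_zero h)))
    (fun f => by
      apply Prod.ext
      · change (S.indg h).map f ≫ 𝟙 _ = 𝟙 _ ≫ (S.indg h).map f
        rw [Category.comp_id, Category.id_comp]
      · exact (isZero_zero (Tn M)).eq_of_src _ _)

/-- `indn ⋙ sectR ≅ sectR ⋙ ind` -/
noncomputable def sectRIso {L M : Λ} (h : le L M) :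
    S.indn h ⋙ Prod.sectR (0 : Tg M) (Tn M) ≅
      Prod.sectR (0 : Tg L) (Tn L) ⋙ (S.indg h).prod (S.indn h) :=
  NatIso.ofComponents (fun A => Iso.prod ((isZero_zero (Tg M)).iso (S.indg_zero h))
    (Iso.refl _))
    (fun f => by
      apply Prod.ext
      · exact (isZero_zero (Tg M)).eq_of_src _ _
      · change (S.indn h).map f ≫ 𝟙 _ = 𝟙 _ ≫ (S.indn h).map f
        rw [Category.comp_id, Category.id_comp])

theorem sectL_ff (M : Λ) (Φ : Tg M × Tn M ⥤ I M) [Φ.Full] [Φ.Faithful] :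
    (Prod.sectL (Tg M) (0 : Tn M) ⋙ Φ).Full ∧ (Prod.sectL (Tg M) (0 : Tn M) ⋙ Φ).Faithful := by
  have h1 : (Prod.sectL (Tg M) (0 : Tn M)).Full := ⟨fun {X Y} f => ⟨f.1, by
    apply Prod.ext
    · rfl
    · exact (isZero_zero (Tn M)).eq_of_src _ _⟩⟩
  have h2 : (Prod.sectL (Tg M) (0 : Tn M)).Faithful := ⟨fun {X Y} f g h => by
    exact congrArg Prod.fst h⟩
  exact ⟨inferInstance, inferInstance⟩

theorem sectR_ff (M : Λ) (Φ : Tg M × Tn M ⥤ I M) [Φ.Full] [Φ.Faithful] :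
    (Prod.sectR (0 : Tg M) (Tn M) ⋙ Φ).Full ∧ (Prod.sectR (0 : Tg M) (Tn M) ⋙ Φ).Faithful := by
  have h1 : (Prod.sectR (0 : Tg M) (Tn M)).Full := ⟨fun {X Y} f => ⟨f.2, by
    apply Prod.ext
    · exact (isZero_zero (Tg M)).eq_of_src _ _
    · rfl⟩⟩
  have h2 : (Prod.sectR (0 : Tg M) (Tn M)).Faithful := ⟨fun {X Y} f g h => by
    exact congrArg Prod.snd h⟩
  exact ⟨inferInstance, inferInstance⟩

/-- A compatible family restricts to compatible families on the two parts. -/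
theorem split [∀ M, HasCoproducts.{w} (Tg M)] (h : S.Coherent) :
    (∃ Φ, S.IsGeneric Φ) ∧ ∃ Ψ, S.IsNonGeneric Ψ := by
  obtain ⟨Φ, hΦ, hc⟩ := h
  have hg : S.IsGeneric fun M => Prod.sectL (Tg M) (0 : Tn M) ⋙ Φ M := by
    refine ⟨fun M => ?_, fun L M h => ?_⟩
    · obtain ⟨h1, h2, h3, h4⟩ := hΦ M
      obtain ⟨a, b⟩ := sectL_ff M (Φ M)
      exact ⟨S.restr_g M _ h1, a, b, h4⟩
    · obtain ⟨i⟩ := hc L M h trivial
      exact ⟨(Functor.associator _ _ _).symm ≪≫ Functor.isoWhiskerRight (S.sectLIso h) (Φ M) ≪≫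
        Functor.associator _ _ _ ≪≫ Functor.isoWhiskerLeft _ i ≪≫ (Functor.associator _ _ _).symm⟩
  refine ⟨⟨_, hg⟩, fun M => Prod.sectR (0 : Tg M) (Tn M) ⋙ Φ M, fun M => ?_, fun L M h => ?_⟩
  · obtain ⟨h1, h2, h3, h4⟩ := hΦ M
    obtain ⟨a, b⟩ := sectR_ff M (Φ M)
    refine ⟨S.restr_n M _ h1, a, b, fun B N hN => ?_⟩
    obtain ⟨A, ⟨e⟩⟩ := (S.image_eq _ hg M N).1 hN
    have e' : (Φ M).obj (A, 0) ≅ N := e
    have hz : IsZero ((Φ M).obj (0, 0)) := S.goodn_zero M _ (S.restr_n M _ h1)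
    have z1 : ∀ (X Y : Tg M × Tn M) (f : X ⟶ Y), f.1 = 0 → f.2 = 0 → (Φ M).map f = 0 := by
      intro X Y f f1 f2
      have : f = ((0, 0) : X ⟶ ((0 : Tg M), (0 : Tn M))) ≫
          ((0, 0) : ((0 : Tg M), (0 : Tn M)) ⟶ Y) := by
        apply Prod.ext
        · simp [f1]
        · simp [f2]
      rw [this, Functor.map_comp, hz.eq_zero_of_tgt ((Φ M).map ((0, 0) : X ⟶ _)), zero_comp]
    constructor
    · intro f
      have hf : f ≫ e'.inv = 0 := by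
        change ((f ≫ e'.inv : (Φ M).obj ((0 : Tg M), B) ⟶ (Φ M).obj (A, (0 : Tn M)))) = 0
        rw [← (Φ M).map_preimage (f ≫ e'.inv : (Φ M).obj ((0 : Tg M), B) ⟶ (Φ M).obj (A, (0 : Tn M)))]
        exact z1 _ _ _ ((isZero_zero _).eq_zero_of_src _) ((isZero_zero _).eq_zero_of_tgt _)
      have := congrArg (fun k => k ≫ e'.hom) hf
      simpa using this
    · intro f
      have hf : e'.hom ≫ f = 0 := by
        change ((e'.hom ≫ f : (Φ M).obj (A, (0 : Tn M)) ⟶ (Φ M).obj ((0 : Tg M), B))) = 0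
        rw [← (Φ M).map_preimage (e'.hom ≫ f : (Φ M).obj (A, (0 : Tn M)) ⟶ (Φ M).obj ((0 : Tg M), B))]
        exact z1 _ _ _ ((isZero_zero _).eq_zero_of_tgt _) ((isZero_zero _).eq_zero_of_src _)
      have := congrArg (fun k => e'.inv ≫ k) hf
      simpa using this
  · obtain ⟨i⟩ := hc L M h trivial
    exact ⟨(Functor.associator _ _ _).symm ≪≫ Functor.isoWhiskerRight (S.sectRIso h) (Φ M) ≪≫
      Functor.associator _ _ _ ≪≫ Functor.isoWhiskerLeft _ i ≪≫ (Functor.associator _ _ _).symm⟩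

/-- `F X ⊕ F Y ≅ F (X ⊕ Y)` is natural. -/
theorem mapBiprod_nat {C D : Type u} [Category.{v} C] [Preadditive C] [HasBinaryBiproducts C]
    [Category.{v} D] [Preadditive D] [HasBinaryBiproducts D] (F : C ⥤ D) [F.Additive]
    [PreservesBinaryBiproducts F] {X Y X' Y' : C} (f : X ⟶ X') (g : Y ⟶ Y') :
    biprod.map (F.map f) (F.map g) ≫ (F.mapBiprod X' Y').inv =
      (F.mapBiprod X Y).inv ≫ F.map (biprod.map f g) := by
  rw [Functor.mapBiprod_inv, Functor.mapBiprod_inv]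
  apply biprod.hom_ext'
  · rw [biprod.inl_map_assoc, biprod.inl_desc, biprod.inl_desc_assoc, ← F.map_comp, ← F.map_comp,
      biprod.inl_map]
  · rw [biprod.inr_map_assoc, biprod.inr_desc, biprod.inr_desc_assoc, ← F.map_comp, ← F.map_comp,
      biprod.inr_map]

/-- Compatible families on the two parts, orthogonal to each other, give a compatible family. -/
theorem join [∀ M, HasCoproducts.{w} (Tg M)] (Φ : ∀ M, (Tg M ⥤ I M)) (hΦ : S.IsGeneric Φ)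
    (Ψ : ∀ M, (Tn M ⥤ I M)) (hΨ : S.IsNonGeneric Ψ) : S.Coherent := by
  refine ⟨fun M => glue (Φ M) (Ψ M), fun M => ?_, fun L M h _ => ?_⟩
  · obtain ⟨a1, a2, a3, ⟨a4⟩⟩ := hΦ.1 M
    obtain ⟨b1, b2, b3, b4⟩ := hΨ.1 M
    obtain ⟨c1, c2⟩ := glue_fullyFaithful (Φ M) (Ψ M)
      (fun X Y f => (b4 Y _ ((S.image_eq Φ hΦ M _).2 ⟨X, ⟨Iso.refl _⟩⟩)).2 f)
      (fun X Y f => (b4 Y _ ((S.image_eq Φ hΦ M _).2 ⟨X, ⟨Iso.refl _⟩⟩)).1 f)
    exact ⟨S.sum M _ _ a1 b1, c1, c2,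
      ⟨(isoBiprodZero (S.goodn_zero M _ b1)).symm ≪≫ a4⟩⟩
  · obtain ⟨i⟩ := hΦ.2 L M h
    obtain ⟨j⟩ := hΨ.2 L M h
    have := S.sp_additive h
    have : PreservesBinaryBiproducts (S.sp h) := preservesBinaryBiproducts_of_preservesBiproducts _
    refine ⟨NatIso.ofComponents (fun X => biprod.mapIso (i.app X.1) (j.app X.2) ≪≫
      ((S.sp h).mapBiprod ((Φ L).obj X.1) ((Ψ L).obj X.2)).symm) (fun {X Y} f => ?_)⟩
    change biprod.map ((Φ M).map ((S.indg h).map f.1)) ((Ψ M).map ((S.indn h).map f.2)) ≫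
        biprod.map (i.hom.app Y.1) (j.hom.app Y.2) ≫
          ((S.sp h).mapBiprod ((Φ L).obj Y.1) ((Ψ L).obj Y.2)).inv =
      (biprod.map (i.hom.app X.1) (j.hom.app X.2) ≫
          ((S.sp h).mapBiprod ((Φ L).obj X.1) ((Ψ L).obj X.2)).inv) ≫
        (S.sp h).map (biprod.map ((Φ L).map f.1) ((Ψ L).map f.2))
    have h1 : (Φ M).map ((S.indg h).map f.1) ≫ i.hom.app Y.1 =
        i.hom.app X.1 ≫ (S.sp h).map ((Φ L).map f.1) := i.hom.naturality f.1
    have h2 : (Ψ M).map ((S.indn h).map f.2) ≫ j.hom.app Y.2 =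
        j.hom.app X.2 ≫ (S.sp h).map ((Ψ L).map f.2) := j.hom.naturality f.2
    have h3 : biprod.map ((Φ M).map ((S.indg h).map f.1)) ((Ψ M).map ((S.indn h).map f.2)) ≫
        biprod.map (i.hom.app Y.1) (j.hom.app Y.2) =
        biprod.map (i.hom.app X.1) (j.hom.app X.2) ≫
          biprod.map ((S.sp h).map ((Φ L).map f.1)) ((S.sp h).map ((Ψ L).map f.2)) := by
      apply biprod.hom_ext' <;> apply biprod.hom_ext <;> simp [h1, h2]
    rw [← Category.assoc, h3, Category.assoc, mapBiprod_nat, Category.assoc]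

end LeviData

end Pool.Agent.H839.CQ
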